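import Pool.Agent.Q227.SD.Pol

/-!
# Recognising strongly 2-divisible graphs is coNP-hard

The definitions `IsCliqueColouring`, `CliqueColourable`, `StronglyDivisible` are in
`Pool.Agent.Q227.SD.Defs`, and `entry`, `IsAdjMatrix`, `matGraph` in `Pool.Agent.Q227.MkM`.

The reduction is from the complement of 3-satisfiability. The graph has two nonadjacent literals at
each of the positions `0, …, L`, and literals at different positions are adjacent. Between
consecutive positions `j`, `j + 1` there is a path with five further vertices; its middle vertex is
also adjacent to all literals except for those which satisfy the clause belonging to `j`.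
An induced subgraph without a clique-colouring has to contain all the paths and, for each position,
one literal; in a clique-colouring of it all literals would have the same colour, so it has none
if and only if the literals form a maximal clique, i.e. if they satisfy all the clauses.
-/

set_option autoImplicit false

namespace Pool.Agent.Results.MP_65ccf5_lc.CoNPHard

open Pool.Agent.NPC Pool.Agent.H673R2 Pool.Agent.Q227 Pool.Agent.Q227.SD

/-- Deciding whether a graph, given by its adjacency matrix, is strongly 2-divisible is coNP-hard
under polynomial-time many-one reductions; hence, if `P ≠ NP`, no polynomial-time algorithm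
decides it. -/
theorem result :
    CoNPHardOn IsAdjMatrix (fun M => StronglyDivisible 2 (matGraph M)) ∧
    (PneNP → ¬ ∃ A : List Bool → List Bool, PolyTime A ∧ ∀ M : List (List Bool), IsAdjMatrix M →
      (StronglyDivisible 2 (matGraph M) → A (bits M) = [true]) ∧
      (¬ StronglyDivisible 2 (matGraph M) → A (bits M) = [false])) := by
  refine ⟨coNPHardOn_of hardPr_SAT3b inst_poly (fun φ _ => mkM_isAdj (adjD_symm _) (adjD_irrefl _))
    fun φ h => correct h.2.1 h.2.2, ?_⟩
  have h : NPHardOn IsAdjMatrix (fun M => ¬ StronglyDivisible 2 (matGraph M)) :=
    npHardOn_of hardPr_SAT3b inst_poly (fun φ _ => mkM_isAdj (adjD_symm _) (adjD_irrefl _))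
      fun φ h => correct h.2.1 h.2.2
  exact no_decider_co h

end Pool.Agent.Results.MP_65ccf5_lc.CoNPHard
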